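import Pool.Agent.Helper46.SP.CoreSpec

/-!
# A01: parameters exist
-/

open Cardinal Set
open scoped Pointwise

namespace Pool.Agent.Helper46.SP

/-- The levels: the first uncountable ordinal. -/
abbrev A01_Lev : Type := (ℵ₁ : Cardinal.{0}).ord.ToType

theorem A01_lev_bdd (s : Set A01_Lev) (hs : s.Countable) : ∃ ν, ∀ ξ ∈ s, ξ < ν := by
  have h1 : (⋃ ξ ∈ s, Set.Iic ξ).Countable := by
    refine hs.biUnion (fun ξ _ => ?_)
    have h2 : #(Set.Iio ξ) < ℵ₁ := Cardinal.mk_Iio_toType_ord_lt ξ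
    have h3 : (Set.Iio ξ).Countable := by
      rw [← Cardinal.le_aleph0_iff_set_countable]
      exact Order.lt_succ_iff.1 (h2.trans_eq Cardinal.succ_aleph0.symm)
    rw [← Set.Iio_insert]
    exact h3.insert ξ
  by_contra hcon
  push Not at hcon
  have h4 : (⋃ ξ ∈ s, Set.Iic ξ) = Set.univ := by
    ext ν
    simp only [Set.mem_iUnion, Set.mem_Iic, Set.mem_univ, iff_true]
    obtain ⟨ξ, hξ, hle⟩ := hcon ν
    exact ⟨ξ, hξ, hle⟩
  rw [h4, ← Cardinal.le_aleph0_iff_set_countable, Cardinal.mk_univ, Cardinal.mk_ord_toType] at h1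
  exact absurd h1 (not_le.2 Cardinal.aleph0_lt_aleph_one)

/-- The cardinals `κ ξ`. -/
noncomputable def A01_κ : A01_Lev → Cardinal.{0} :=
  (wellFounded_lt (α := A01_Lev)).fix (fun ξ ih =>
    (2 : Cardinal.{0}) ^ ((2 : Cardinal.{0}) ^
      (max ((2 : Cardinal.{0}) ^ ℵ₀) (⨆ η : {η : A01_Lev // η < ξ}, ih η.1 η.2))))

/-- The cardinals `μ ξ`. -/
noncomputable def A01_μ (ξ : A01_Lev) : Cardinal.{0} :=
  max ((2 : Cardinal.{0}) ^ ℵ₀) (⨆ η : {η : A01_Lev // η < ξ}, A01_κ η.1)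

theorem A01_κ_eq (ξ : A01_Lev) : A01_κ ξ = (2 : Cardinal.{0}) ^ ((2 : Cardinal.{0}) ^ A01_μ ξ) := by
  unfold A01_κ
  rw [WellFounded.fix_eq]
  rfl

theorem A01_κ_le_μ {η ξ : A01_Lev} (h : η < ξ) : A01_κ η ≤ A01_μ ξ := by
  refine le_trans ?_ (le_max_right _ _)
  exact le_ciSup (f := fun η : {η : A01_Lev // η < ξ} => A01_κ η.1) Cardinal.bddAbove_of_small ⟨η, h⟩

theorem A01_cont_le_μ (ξ : A01_Lev) : (2 : Cardinal.{0}) ^ ℵ₀ ≤ A01_μ ξ := le_max_left _ _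

theorem A01_aleph0_le_μ (ξ : A01_Lev) : ℵ₀ ≤ A01_μ ξ :=
  (Cardinal.cantor _).le.trans (A01_cont_le_μ ξ)

theorem A01_μ_lt (ξ : A01_Lev) : A01_μ ξ < A01_κ ξ := by
  rw [A01_κ_eq]
  exact (Cardinal.cantor _).trans (Cardinal.cantor _)

theorem A01_pow (ξ : A01_Lev) (c : Cardinal.{0}) (h1 : c ≤ A01_μ ξ) (h0 : c ≠ 0) :
    A01_κ ξ ^ c = A01_κ ξ := by
  rw [A01_κ_eq, ← Cardinal.power_mul]
  congr 1
  refine Cardinal.mul_eq_left ?_ ?_ h0
  · exact (A01_aleph0_le_μ ξ).trans (Cardinal.cantor _).le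
  · exact h1.trans (Cardinal.cantor _).le

theorem A01_κ_ne_zero (ξ : A01_Lev) : A01_κ ξ ≠ 0 := by
  have := (Cardinal.aleph0_pos.trans_le (A01_aleph0_le_μ ξ)).trans (A01_μ_lt ξ)
  exact this.ne'

/-- The supremum of the `κ ξ`. -/
noncomputable def A01_sup : Cardinal.{0} := ⨆ ξ : A01_Lev, A01_κ ξ

theorem A01_κ_le_sup (ξ : A01_Lev) : A01_κ ξ ≤ A01_sup :=
  le_ciSup (f := A01_κ) Cardinal.bddAbove_of_small ξ

theorem st_par : ST_par := by
  have hne : Nonempty A01_Lev := by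
    obtain ⟨ν, _⟩ := A01_lev_bdd ∅ Set.countable_empty
    exact ⟨ν⟩
  obtain ⟨ξ₀⟩ := hne
  have hsup : ℵ₀ ≤ A01_sup :=
    ((A01_aleph0_le_μ ξ₀).trans (A01_μ_lt ξ₀).le).trans (A01_κ_le_sup ξ₀)
  refine ⟨{ Lev := A01_Lev
            Ω := (Order.succ ((2 : Cardinal.{0}) ^ A01_sup)).out
            κ := A01_κ
            K := (2 : Cardinal.{0}) ^ A01_sup
            lev_bdd := A01_lev_bdd
            card_lev := ?_
            cont_le := ?_
            κ_omega := ?_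
            κ_beth := ?_
            κ_pow := ?_
            κ_reg := ?_
            κ_le_K := ?_
            K_pow := ?_
            K_reg := ?_
            K_lt := ?_ }⟩
  · intro ξ
    rw [Cardinal.mk_ord_toType]
    exact (Cardinal.aleph_one_le_continuum).trans
      ((Cardinal.two_power_aleph0 ▸ A01_cont_le_μ ξ).trans (A01_μ_lt ξ).le)
  · intro ξ
    exact (A01_cont_le_μ ξ).trans (A01_μ_lt ξ).le
  · intro ξ
    exact A01_pow ξ _ (A01_aleph0_le_μ ξ) Cardinal.aleph0_ne_zero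
  · intro η ξ h
    rw [A01_κ_eq ξ]
    exact Cardinal.power_le_power_left two_ne_zero
      (Cardinal.power_le_power_left two_ne_zero (A01_κ_le_μ h))
  · intro η ξ h
    exact A01_pow ξ _ (A01_κ_le_μ h) (A01_κ_ne_zero η)
  · intro ξ
    refine ⟨Order.succ (A01_μ ξ), Cardinal.isRegular_succ (A01_aleph0_le_μ ξ), ?_, ?_⟩
    · intro η h
      exact Order.lt_succ_of_le (A01_κ_le_μ h)
    · exact Order.succ_le_of_lt (A01_μ_lt ξ)
  · intro ξ
    exact (A01_κ_le_sup ξ).trans (Cardinal.cantor _).le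
  · intro ξ
    rw [← Cardinal.power_mul]
    congr 1
    exact Cardinal.mul_eq_left hsup (A01_κ_le_sup ξ) (A01_κ_ne_zero ξ)
  · refine ⟨Order.succ A01_sup, Cardinal.isRegular_succ hsup, ?_, ?_⟩
    · intro η
      exact Order.lt_succ_of_le (A01_κ_le_sup η)
    · exact Order.succ_le_of_lt (Cardinal.cantor _)
  · rw [Cardinal.mk_out]
    exact Order.lt_succ _

end Pool.Agent.Helper46.SP
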