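import Pool.Agent.Helper46.SP.CoreSpec

/-!
# A04: existence of permutations
-/

open Cardinal Set
open scoped Pointwise

namespace Pool.Agent.Helper46.SP

variable {Q : Par}

theorem A04_nonempty_lev (Q : Par) : Nonempty Q.Lev := by
  obtain ⟨ν, _⟩ := Q.lev_bdd ∅ Set.countable_empty
  exact ⟨ν⟩

theorem A04_aleph0_le_K (Q : Par) : (ℵ₀ : Cardinal.{0}) ≤ Q.K := by
  obtain ⟨ν⟩ := A04_nonempty_lev Q
  exact ((Cardinal.cantor _).le.trans (Q.cont_le ν)).trans (Q.κ_le_K ν)

theorem A04_infinite (Q : Par) : Infinite Q.Ω := by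
  rw [Cardinal.infinite_iff]
  exact (A04_aleph0_le_K Q).trans Q.K_lt.le

/-- The slice of a set of indices at level `k`. -/
def A04_slice (D : Set (Idx Q)) (k : Option Q.Lev) : Set Q.Ω := {a | ((k, a) : Idx Q) ∈ D}

theorem A04_mk_slice_le (D : Set (Idx Q)) (k : Option Q.Lev) : #(A04_slice D k) ≤ #D := by
  refine Cardinal.mk_le_of_injective (f := fun a : A04_slice D k => (⟨(k, a.1), a.2⟩ : D)) ?_
  intro a b h
  have h1 : ((k, a.1) : Idx Q) = (k, b.1) := congrArg Subtype.val h
  exact Subtype.ext (congrArg Prod.snd h1)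

theorem A04_ext (D : Set (Idx Q)) (f : Idx Q → Idx Q) (hD : #D ≤ Q.K)
    (hl : ∀ i ∈ D, (f i).1 = i.1) (hf : Set.InjOn f D) : ∃ g : Grp Q, ∀ i ∈ D, g • i = f i := by
  have key : ∀ k : Option Q.Lev, ∃ g : Equiv.Perm Q.Ω, ∀ a ∈ A04_slice D k, g a = (f (k, a)).2 := by
    intro k
    let e : A04_slice D k ↪ Q.Ω :=
      ⟨fun a => (f (k, a.1)).2, by
        intro a b h
        have ha : (f (k, a.1)).1 = k := hl _ a.2
        have hb : (f (k, b.1)).1 = k := hl _ b.2
        have h2 : f (k, a.1) = f (k, b.1) := Prod.ext (ha.trans hb.symm) h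
        have h3 := hf a.2 b.2 h2
        exact Subtype.ext (congrArg Prod.snd h3)⟩
    have hs : #(A04_slice D k) < #Q.Ω := ((A04_mk_slice_le D k).trans hD).trans_lt Q.K_lt
    obtain ⟨g, hg⟩ := Cardinal.extend_function_of_lt e hs ⟨Equiv.refl _⟩
    exact ⟨g, fun a ha => hg ⟨a, ha⟩⟩
  choose g hg using key
  refine ⟨g, ?_⟩
  rintro ⟨k, a⟩ hi
  rw [smul_idx]
  exact Prod.ext (hl _ hi).symm (hg k a hi)

theorem A04_fresh (A B Z : Set (Idx Q)) (hA : #A ≤ Q.K) (hB : #B ≤ Q.K) (hZ : Z ⊆ A) :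
    ∃ g : Grp Q, Fixes g Z ∧ ∀ i ∈ A, i ∉ Z → g • i ∉ B := by
  classical
  haveI := A04_infinite Q
  have hK := A04_aleph0_le_K Q
  have key : ∀ k : Option Q.Lev, ∃ e : Q.Ω → Q.Ω, Function.Injective e ∧
      ∀ a, e a ∉ A04_slice A k ∧ e a ∉ A04_slice B k := by
    intro k
    have h1 : #(A04_slice A k ∪ A04_slice B k : Set Q.Ω) < #Q.Ω := by
      refine (Cardinal.mk_union_le _ _).trans_lt ?_
      refine (add_le_add ((A04_mk_slice_le A k).trans hA) ((A04_mk_slice_le B k).trans hB)).trans_lt ?_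
      rw [Cardinal.add_eq_self hK]
      exact Q.K_lt
    have h2 := Cardinal.mk_compl_of_infinite _ h1
    obtain ⟨e⟩ := Cardinal.eq.1 h2
    refine ⟨fun a => (e.symm a).1, Subtype.val_injective.comp e.symm.injective, fun a => ?_⟩
    have := (e.symm a).2
    simp only [Set.mem_compl_iff, Set.mem_union, not_or] at this
    exact this
  choose e he1 he2 using key
  let f : Idx Q → Idx Q := fun i => if i ∈ Z then i else (i.1, e i.1 i.2)
  have hf1 : ∀ i ∈ A, (f i).1 = i.1 := by
    intro i _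
    by_cases h : i ∈ Z
    · simp only [f, if_pos h]
    · simp only [f, if_neg h]
  have hf2 : Set.InjOn f A := by
    rintro ⟨k, a⟩ _ ⟨k', a'⟩ _ h
    have hk : k = k' := by
      have h1 := congrArg Prod.fst h
      have h2 : (f (k, a)).1 = k := by
        by_cases h : ((k, a) : Idx Q) ∈ Z
        · simp only [f, if_pos h]
        · simp only [f, if_neg h]
      have h3 : (f (k', a')).1 = k' := by
        by_cases h : ((k', a') : Idx Q) ∈ Z
        · simp only [f, if_pos h]
        · simp only [f, if_neg h]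
      rw [h2, h3] at h1
      exact h1
    subst hk
    by_cases hz : ((k, a) : Idx Q) ∈ Z
    · by_cases hz' : ((k, a') : Idx Q) ∈ Z
      · simpa only [f, if_pos hz, if_pos hz'] using h
      · exfalso
        simp only [f, if_pos hz, if_neg hz'] at h
        have h4 : a = e k a' := congrArg Prod.snd h
        exact (he2 k a').1 (h4 ▸ hZ hz)
    · by_cases hz' : ((k, a') : Idx Q) ∈ Z
      · exfalso
        simp only [f, if_neg hz, if_pos hz'] at h
        have h4 : e k a = a' := congrArg Prod.snd h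
        exact (he2 k a).1 (h4.symm ▸ hZ hz')
      · simp only [f, if_neg hz, if_neg hz'] at h
        have h4 : e k a = e k a' := congrArg Prod.snd h
        rw [he1 k h4]
  obtain ⟨g, hg⟩ := A04_ext A f hA hf1 hf2
  refine ⟨g, fun i hi => ?_, fun i hi hiZ hb => ?_⟩
  · rw [hg i (hZ hi)]
    simp only [f, if_pos hi]
  · rw [hg i hi] at hb
    simp only [f, if_neg hiZ] at hb
    exact (he2 i.1 i.2).2 hb

theorem A04_freshAbove (ν : Stg Q) (A B : Set (Idx Q)) (hA : #A ≤ Q.K) (hB : #B ≤ Q.K) :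
    ∃ g : Grp Q, Fixes g (below ν) ∧ ∀ i ∈ A, i ∉ below ν → g • i ∉ B := by
  classical
  obtain ⟨g, _, hg⟩ := A04_fresh A B ∅ hA hB (Set.empty_subset _)
  let good : Option Q.Lev → Prop := fun k => ∀ ξ, k = some ξ → (ξ : Stg Q) < ν
  refine ⟨fun k => if good k then 1 else g k, ?_, ?_⟩
  · intro i hi
    rw [smul_idx]
    have : good i.1 := hi
    simp only [if_pos this]
    rfl
  · intro i hi hn
    have : ¬ good i.1 := hn
    rw [smul_idx]
    simp only [if_neg this]
    exact hg i hi (fun h => h.elim)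

theorem st_perm : ST_perm := fun Q =>
  { ext := fun D f h1 h2 h3 => A04_ext D f h1 h2 h3
    fresh := fun A B Z h1 h2 h3 => A04_fresh A B Z h1 h2 h3
    freshAbove := fun ν A B h1 h2 => A04_freshAbove ν A B h1 h2 }

end Pool.Agent.Helper46.SP
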