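import Pool.Agent.Helper54.SP.StmtsW

/-!
Module `EI` of `Pool.Agent.Helper54.SP`: the code is computable in polynomial time.
-/

set_option autoImplicit false

namespace Pool.Agent.Helper54.SP

open Finset Pool.Agent.Helper54.Poly

theorem ei_inner {β : Type} [TEnc β] {g : β → List ℕ} (hg : PT g) :
    PT (fun b => (g b).flatMap fun i => List.replicate i true ++ [false]) := by
  have h : PT (fun z : β × ℕ => List.replicate z.2 true ++ [false]) :=
    PT.append (PT.replicate PT.id.snd (PT.const _)) (PT.const _)
  exact PT.flatMap h hg

theorem st_EI : ST_EI := by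
  intro α _ n F hn hF
  have h : PT (fun z : α × List ℕ => z.2.flatMap fun i => List.replicate i true ++ [false]) :=
    ei_inner PT.id.snd
  have h2 : PT (fun a => (F a).flatMap fun f => f.flatMap fun i =>
      List.replicate i true ++ [false]) :=
    PT.flatMap h hF
  exact PT.append (PT.replicate hn (PT.const _)) (PT.lcons (PT.const _) h2)

end Pool.Agent.Helper54.SP
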