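import Pool.Agent.Helper54.SP.StmtsP

/-!
Module `FB1` of `Pool.Agent.Helper54.SP`: sign bookkeeping at a fan, the apices above a layer.
-/

set_option autoImplicit false

namespace Pool.Agent.Helper54.SP

open Finset

theorem fb1_apx_succ (N m : ℕ) : apx N (m + 1) = apx N m ++ [N + m] := by
  simp [apx, List.range_succ]

theorem fb1_aex_succ (N m c : ℕ) (h : c < m) : aex N (m + 1) c = aex N m c ++ [N + m] := by
  have h1 : ¬ (m = c) := by omega
  unfold aex
  rw [fb1_apx_succ, List.filter_append]
  simp [h1]

theorem fb1_mem_apx {N m i : ℕ} (h : i ∈ apx N m) : N ≤ i ∧ i < N + m := by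
  unfold apx at h
  rw [List.mem_map] at h
  obtain ⟨j, hj, rfl⟩ := h
  rw [List.mem_range] at hj
  omega

theorem fb1_mem_aex {N m c i : ℕ} (h : i ∈ aex N m c) : N ≤ i ∧ i < N + m :=
  fb1_mem_apx (List.mem_of_mem_filter h)

theorem fb1_aex_self (N c : ℕ) : aex N (c + 1) c = apx N c := by
  unfold aex
  rw [fb1_apx_succ, List.filter_append]
  have h1 : (apx N c).filter (fun i => decide (i ≠ N + c)) = apx N c := by
    rw [List.filter_eq_self]
    intro i hi
    have := fb1_mem_apx hi
    simp
    omega
  rw [h1]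
  simp

theorem fb1_aex_length (N c : ℕ) : ∀ r : ℕ, (aex N (c + 1 + r) c).length = c + r := by
  intro r
  induction r with
  | zero =>
    rw [Nat.add_zero, fb1_aex_self]
    simp [apx]
  | succ r ih =>
    have h1 : c + 1 + (r + 1) = (c + 1 + r) + 1 := by omega
    rw [h1, fb1_aex_succ N (c + 1 + r) c (by omega), List.length_append, ih]
    simp
    omega

theorem fb1_getD (A B : List ℕ) (a : ℕ) : (A ++ a :: B).getD A.length 0 = a := by
  simp [List.getD]

theorem fb1_erase (A B : List ℕ) (a : ℕ) : (A ++ a :: B).eraseIdx A.length = A ++ B := by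
  rw [List.eraseIdx_append_of_length_le (le_refl _)]
  simp

theorem st_FB1 (h1 : ST_AMX) : ST_FB1 := by
  intro m N σ ρ c s x hK hc hs hsN hx hnd
  obtain ⟨r, rfl⟩ := Nat.exists_eq_add_of_lt hc
  have hm : c + r + 1 = c + 1 + r := by omega
  rw [hm] at hK hnd ⊢
  clear hm hc
  induction r with
  | zero =>
    rw [Nat.add_zero, fb1_aex_self]
    have : (c + 1 - 1 - c) = 0 := by omega
    rw [this]
    simp
  | succ r ih =>
    have e1 : c + 1 + (r + 1) = (c + 1 + r) + 1 := by omega
    have e2 : aex N (c + 1 + (r + 1)) c = aex N (c + 1 + r) c ++ [N + (c + 1 + r)] := by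
      rw [e1]
      exact fb1_aex_succ N (c + 1 + r) c (by omega)
    have hlen := fb1_aex_length N c r
    set B := aex N (c + 1 + r) c with hB
    have e3 : s ++ aex N (c + 1 + (r + 1)) c ++ [x] =
        (s ++ B) ++ (N + (c + 1 + r)) :: [x] := by
      rw [e2]
      simp
    rw [e3] at hnd
    have hsBlen : (s ++ B).length = c + r + 3 := by
      rw [List.length_append, hs, hlen]
      omega
    obtain ⟨k1, k2, -⟩ := hK (c + 1 + r) (by omega)
    have hmem : ∀ i ∈ (s ++ B) ++ (N + (c + 1 + r)) :: [x],
        i = N + (c + 1 + r) ∨ i < N + (c + 1 + r) := by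
      intro i hi
      simp only [List.mem_append, List.mem_cons, List.not_mem_nil, or_false] at hi
      rcases hi with (hi | hi) | hi | hi
      · have := hsN i hi
        omega
      · have := fb1_mem_aex hi
        omega
      · exact Or.inl hi
      · omega
    have hmem' : ∀ i ∈ (s ++ B) ++ (N + (c + 1 + r)) :: [x], i ≤ N + (c + 1 + r) := by
      intro i hi
      have := hmem i hi
      omega
    have hamax : amax (ρ (c + 1 + r)) ((s ++ B) ++ (N + (c + 1 + r)) :: [x]) = c + r + 3 := by
      obtain ⟨-, -, h3⟩ := h1 (ρ (c + 1 + r)) ((s ++ B) ++ (N + (c + 1 + r)) :: [x])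
        (by simp) hnd (fun i hi j hj hij => k1 i j (hmem' i hi) (hmem' j hj) hij)
      apply h3
      · rw [List.length_append, hsBlen]
        simp
      · intro j hj
        rw [← hsBlen, fb1_getD]
        rcases hmem j hj with h | h
        · rw [h]
        · exact le_of_lt (k2 j h)
    have hchi : chi σ ρ (c + 1 + (r + 1)) ((s ++ B) ++ (N + (c + 1 + r)) :: [x]) =
        !(chi σ ρ (c + 1 + r) ((s ++ B) ++ [x])) := by
      rw [e1]
      change lexs (ρ (c + 1 + r)) (chi σ ρ (c + 1 + r))
        ((s ++ B) ++ (N + (c + 1 + r)) :: [x]) = _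
      unfold lexs
      have hl : ((s ++ B) ++ (N + (c + 1 + r)) :: [x]).length - 1 = c + r + 4 := by
        rw [List.length_append, hsBlen]
        simp
      rw [hamax, hl]
      have he : ((s ++ B) ++ (N + (c + 1 + r)) :: [x]).eraseIdx (c + r + 3) =
          (s ++ B) ++ [x] := by
        rw [← hsBlen, fb1_erase]
      rw [he]
      have hp : (c + r + 3 + (c + r + 4)) % 2 = 1 := by omega
      simp [hp]
    have hnd' : (s ++ B ++ [x]).Nodup := by
      have hsub : (s ++ B ++ [x]).Sublist ((s ++ B) ++ (N + (c + 1 + r)) :: [x]) := by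
        apply List.Sublist.append (List.Sublist.refl _)
        exact List.sublist_cons_self _ _
      exact hnd.sublist hsub
    have hih := ih (fun c' hc' => hK c' (by omega)) hnd'
    rw [e3, hchi, hih]
    by_cases hp : (c + 1 + r - 1 - c) % 2 = 1
    · have hp2 : ¬ ((c + 1 + (r + 1) - 1 - c) % 2 = 1) := by omega
      simp only [hp, hp2, decide_true, decide_false]
      simp
    · have hp2 : (c + 1 + (r + 1) - 1 - c) % 2 = 1 := by omega
      simp only [hp, hp2, decide_true, decide_false]
      simp

end Pool.Agent.Helper54.SP
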