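import Pool.Agent.Helper54.SP.StmtsP

/-!
Module `LIFTM` of `Pool.Agent.Helper54.SP`: several successive liftings.
-/

set_option autoImplicit false

namespace Pool.Agent.Helper54.SP

open Finset

theorem st_LIFTM (h1 : ST_LIFT) : ST_LIFTM := by
  intro m
  induction m with
  | zero =>
    intro N X σ ρ hA _ hs
    exact ⟨X, hA, hs⟩
  | succ m ih =>
    intro N X σ ρ hA hK hs
    obtain ⟨Y, hY, hYs⟩ := ih N X σ ρ hA (fun c hc => hK c (Nat.lt_succ_of_lt hc)) hs
    obtain ⟨hk1, hk2, -⟩ := hK m (Nat.lt_succ_self m)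
    obtain ⟨h, hpos, hL⟩ := h1 (3 + m) (N + m) Y (chi σ ρ m) (ρ m) hY hk1 hk2
    refine ⟨_, hL, ?_⟩
    intro i hi
    have he : 3 + (m + 1) = 3 + m + 1 := by omega
    rw [he, Finset.sum_range_succ]
    by_cases hi2 : i < N + m
    · have e1 : ∀ j ∈ range (3 + m), (if i < N + m then (if j < 3 + m then Y i j else h i)
          else (if j = 3 + m then (1 : ℝ) else 0)) = Y i j := by
        intro j hj
        rw [if_pos hi2, if_pos (Finset.mem_range.1 hj)]
      rw [Finset.sum_congr rfl e1, if_pos hi2, if_neg (lt_irrefl _)]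
      exact add_pos (hYs i hi2) (hpos i)
    · have e1 : ∀ j ∈ range (3 + m), (if i < N + m then (if j < 3 + m then Y i j else h i)
          else (if j = 3 + m then (1 : ℝ) else 0)) = 0 := by
        intro j hj
        rw [if_neg hi2, if_neg (ne_of_lt (Finset.mem_range.1 hj))]
      rw [Finset.sum_congr rfl e1, if_neg hi2, if_pos rfl, Finset.sum_const_zero, zero_add]
      exact one_pos

end Pool.Agent.Helper54.SP
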